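import Pool.Agent.Helper6.MONO.Stmts

/-!
The program computes the explicit formulas: odd blocks.
-/

set_option autoImplicit false
noncomputable section
namespace Pool.Agent.Helper6.MONO

theorem eqo_inv (s : ℝ) (hs : 0 ≤ s) (D : RC) (hD : 0 < D.r) :
    RC.inv s D = ⟨D.r / (D.r * D.r + s * (D.i * D.i)),
      -(D.i / (D.r * D.r + s * (D.i * D.i)))⟩ := by
  have hn : 0 < D.r * D.r + s * (D.i * D.i) := by
    have h2 : 0 ≤ s * (D.i * D.i) := mul_nonneg hs (mul_self_nonneg _)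
    have h3 : 0 < D.r * D.r := mul_pos hD hD
    linarith
  have h1 : D.r + s * (D.i * D.i * (1 / D.r)) = (D.r * D.r + s * (D.i * D.i)) / D.r := by
    field_simp
  show (⟨1 / (D.r + s * ((D.i * D.i) * (1 / D.r))),
    -((D.i * (1 / D.r)) * (1 / (D.r + s * ((D.i * D.i) * (1 / D.r)))))⟩ : RC) = _
  rw [h1]
  have h4 : 1 / ((D.r * D.r + s * (D.i * D.i)) / D.r) = D.r / (D.r * D.r + s * (D.i * D.i)) :=
    one_div_div _ _
  rw [h4]
  have h5 : D.i * (1 / D.r) * (D.r / (D.r * D.r + s * (D.i * D.i))) =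
      D.i / (D.r * D.r + s * (D.i * D.i)) := by
    field_simp
  rw [h5]

/-- derivative data -/
def eqX1 (s : ℝ) (eps : Bool) (z : RSt) : ℝ := rsg eps (z.ad - s * z.bd - (1 + s) * z.b)
def eqX2 (z : RSt) : ℝ := z.ad + z.bd
def eqyd (s : ℝ) (z : RSt) (b0 Sg yr v : ℝ) : ℝ :=
  (2 * (z.a * z.ad + s * (z.b * z.bd)) + (1 + s) * (z.b * z.b)
    + Sg * (1 + s) *
      (yr * yr + s * (z.be * z.be) + 2 * s * (z.be * z.bed) + (1 + s) * (z.be * z.be))
    - b0 * ((1 + s) * z.be + s * z.bed)) / v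
def eqY1 (s : ℝ) (yr yd : ℝ) : ℝ := (1 + s) * (yr + yd)
def eqY2 (s : ℝ) (eps : Bool) (z : RSt) : ℝ := (1 + s) * rsg eps (z.be + z.bed)

theorem eqo_ad (s : ℝ) (eps cj : Bool) (z : RSt) (b0 Sg yr Yi : ℝ) (w yQ D Q P V : RC)
    (dl ep v : ℝ) (hYi : Yi = (1 + s) * rsg eps z.be) :
    (r_ph3 s (1 + s) eps cj z b0 Sg yr Yi w yQ D Q P V dl ep (z.b * z.b) (z.be * z.be)
      (1 / v)).st.ad =
    (P.r * eqX1 s eps z - s * (P.i * eqX2 z)) +
      (V.r * eqY1 s yr (eqyd s z b0 Sg yr v) - s * (V.i * eqY2 s eps z)) +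
      (1 + s) * (w.i * D.i) * Q.r := by
  subst hYi
  simp only [r_ph3, r_ph4, r_ph5, r_final, RC.add, RC.sc, r_mulca, r_mulcb, r_cg, r_cc, eqX1,
    eqX2, eqyd, eqY1, eqY2]
  cases eps <;> simp only [rsg_true, rsg_false] <;> ring

theorem eqo_bd (s : ℝ) (eps cj : Bool) (z : RSt) (b0 Sg yr Yi : ℝ) (w yQ D Q P V : RC)
    (dl ep v : ℝ) (hYi : Yi = (1 + s) * rsg eps z.be) :
    (r_ph3 s (1 + s) eps cj z b0 Sg yr Yi w yQ D Q P V dl ep (z.b * z.b) (z.be * z.be)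
      (1 / v)).st.bd =
    rsg cj ((P.i * eqX1 s eps z + P.r * eqX2 z) +
      (V.i * eqY1 s yr (eqyd s z b0 Sg yr v) + V.r * eqY2 s eps z) +
      (1 + s) * (w.i * D.i) * Q.i) := by
  subst hYi
  simp only [r_ph3, r_ph4, r_ph5, r_final, RC.add, RC.sc, r_mulca, r_mulcb, r_cg, r_cc, eqX1,
    eqX2, eqyd, eqY1, eqY2]
  congr 1
  cases eps <;> simp only [rsg_true, rsg_false] <;> ring

/-- the product `D' Q` -/
def eqM1 (s : ℝ) (Q : RC) (dl ep x1 x2 y1 y2 : ℝ) : ℝ :=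
  Q.r * (dl * x1 + ep * y1) - s * (Q.i * (dl * x2 + ep * y2))
def eqM2 (Q : RC) (dl ep x1 x2 y1 y2 : ℝ) : ℝ :=
  Q.i * (dl * x1 + ep * y1) + Q.r * (dl * x2 + ep * y2)

theorem eqo_bed (s : ℝ) (eps cj : Bool) (z : RSt) (b0 Sg yr Yi : ℝ) (w yQ D Q P V : RC)
    (dl ep v : ℝ) (hYi : Yi = (1 + s) * rsg eps z.be) :
    (r_ph3 s (1 + s) eps cj z b0 Sg yr Yi w yQ D Q P V dl ep (z.b * z.b) (z.be * z.be)
      (1 / v)).st.bed =
    rsg cj (-(yQ.r * eqM2 Q dl ep (eqX1 s eps z) (eqX2 z) (eqY1 s yr (eqyd s z b0 Sg yr v))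
          (eqY2 s eps z) +
        yQ.i * eqM1 s Q dl ep (eqX1 s eps z) (eqX2 z) (eqY1 s yr (eqyd s z b0 Sg yr v))
          (eqY2 s eps z)) + (1 + s) * (Q.i * D.i * yQ.i)) := by
  subst hYi
  simp only [r_ph3, r_ph4, r_ph5, r_final, RC.add, RC.sc, r_mulca, r_mulcb, r_cg, r_cc, eqX1,
    eqX2, eqyd, eqY1, eqY2, r_imm, eqM1, eqM2]
  congr 1
  cases eps <;> simp only [rsg_true, rsg_false] <;> ring

theorem eqo_L (s : ℝ) (eps cj : Bool) (z : RSt) (b0 Sg yr Yi : ℝ) (w yQ D Q P V : RC)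
    (dl ep v : ℝ) (hYi : Yi = (1 + s) * rsg eps z.be) :
    (r_ph3 s (1 + s) eps cj z b0 Sg yr Yi w yQ D Q P V dl ep (z.b * z.b) (z.be * z.be)
      (1 / v)).L =
    2 * eqM1 s Q dl ep (eqX1 s eps z) (eqX2 z) (eqY1 s yr (eqyd s z b0 Sg yr v))
          (eqY2 s eps z) - (1 + s) * (Q.i * D.i) - 1 := by
  subst hYi
  simp only [r_ph3, r_ph4, r_ph5, r_final, RC.add, RC.sc, r_mulca, r_mulcb, r_cg, r_cc, eqX1,
    eqX2, eqyd, eqY1, eqY2, eqM1]
  cases eps <;> simp only [rsg_true, rsg_false] <;> ring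

/-! the quotient rule -/

theorem eqo_wr (s n Dr Di Nr Ni c dl m ep x1 x2 y1 y2 : ℝ) (hn : n = Dr * Dr + s * (Di * Di))
    (hn0 : n ≠ 0) (Q P V : RC) (wi wr : ℝ) (hQ : Q = ⟨Dr / n, -(Di / n)⟩)
    (hP : P = RC.mul s ⟨c * Dr - dl * Nr, c * Di - dl * Ni⟩ (RC.mul s Q Q))
    (hV : V = RC.mul s ⟨-(m * Dr) - ep * Nr, -(m * Di) - ep * Ni⟩ (RC.mul s Q Q))
    (hwi : wi = (Ni * Dr - Nr * Di) / n) (hwr : wr = (Nr * Dr + s * (Ni * Di)) / n) :
    (P.r * x1 - s * (P.i * x2)) + (V.r * y1 - s * (V.i * y2)) + (1 + s) * (wi * Di) * Q.r =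
    (((c * x1 - m * y1) * Dr + Nr * (dl * x1 + ep * y1)
        + s * ((c * x2 - m * y2) * Di + Ni * (dl * x2 + ep * y2)) + (1 + s) * (Ni * Di))
      - wr * (2 * (Dr * (dl * x1 + ep * y1) + s * (Di * (dl * x2 + ep * y2)))
        + (1 + s) * (Di * Di))) / n := by
  subst hP hV hQ hwi hwr
  simp only [RC.mul]
  field_simp
  subst hn
  ring

theorem eqo_wi (s n Dr Di Nr Ni c dl m ep x1 x2 y1 y2 : ℝ) (hn : n = Dr * Dr + s * (Di * Di))
    (hn0 : n ≠ 0) (Q P V : RC) (wi : ℝ) (hQ : Q = ⟨Dr / n, -(Di / n)⟩)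
    (hP : P = RC.mul s ⟨c * Dr - dl * Nr, c * Di - dl * Ni⟩ (RC.mul s Q Q))
    (hV : V = RC.mul s ⟨-(m * Dr) - ep * Nr, -(m * Di) - ep * Ni⟩ (RC.mul s Q Q))
    (hwi : wi = (Ni * Dr - Nr * Di) / n) :
    (P.i * x1 + P.r * x2) + (V.i * y1 + V.r * y2) + (1 + s) * (wi * Di) * Q.i =
    (((c * x2 - m * y2) * Dr + Ni * (dl * x1 + ep * y1)
        - (c * x1 - m * y1) * Di - Nr * (dl * x2 + ep * y2))
      - wi * (2 * (Dr * (dl * x1 + ep * y1) + s * (Di * (dl * x2 + ep * y2)))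
        + (1 + s) * (Di * Di))) / n := by
  subst hP hV hQ hwi
  simp only [RC.mul]
  field_simp
  subst hn
  ring

theorem eqo_be (s n Dr Di dl ep x1 x2 y1 y2 yf : ℝ) (hn : n = Dr * Dr + s * (Di * Di))
    (hn0 : n ≠ 0) (Q yQ D : RC) (hQ : Q = ⟨Dr / n, -(Di / n)⟩) (hyQ : yQ = RC.sc yf Q)
    (hD : D.i = Di) :
    -(yQ.r * eqM2 Q dl ep x1 x2 y1 y2 + yQ.i * eqM1 s Q dl ep x1 x2 y1 y2)
      + (1 + s) * (Q.i * D.i * yQ.i) =
    -(yf * ((dl * x2 + ep * y2) - Di * (2 * (Dr * (dl * x1 + ep * y1)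
      + s * (Di * (dl * x2 + ep * y2))) + (1 + s) * (Di * Di)) / n)) / n := by
  subst hyQ hQ hD
  simp only [RC.sc, eqM1, eqM2]
  field_simp
  subst hn
  ring

theorem eqo_Ld (s n Dr Di dl ep x1 x2 y1 y2 : ℝ)
    (hn0 : n ≠ 0) (Q D : RC) (hQ : Q = ⟨Dr / n, -(Di / n)⟩) (hD : D.i = Di) :
    2 * eqM1 s Q dl ep x1 x2 y1 y2 - (1 + s) * (Q.i * D.i) - 1 =
    (2 * (Dr * (dl * x1 + ep * y1) + s * (Di * (dl * x2 + ep * y2)))
      + (1 + s) * (Di * Di)) / n - 1 := by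
  subst hQ hD
  simp only [eqM1]
  field_simp
  ring

/-- the null relation as a fixed point of the iteration -/
theorem eqo_itY (s k hd he : ℝ) (z : RSt) (hN : NR s k hd he z.val) (td b0 K : ℝ)
    (htd : td = SbP hd) (hb0 : b0 = b0P k hd he)
    (hK : K = (1 + s) * (SbP k * (gP k hd he * gP k hd he))) :
    r_itY (r_cA s td b0 z) K (s * (z.be * z.be)) (r_itY (r_cA s td b0 z) K (s * (z.be * z.be)) z.yr)
      = z.yr := by
  have h : r_itY (r_cA s td b0 z) K (s * (z.be * z.be)) z.yr = z.yr := by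
    unfold NR at hN
    simp only [RSt.val] at hN
    rw [r_itY, r_cA, htd, hb0, hK]
    linear_combination -hN
  rw [h, h]

/-- conclusions for the generic phase of the odd blocks -/
theorem eqo_core (s : ℝ) (hs : 0 ≤ s) (eps : Bool) (z : RSt) (g b0 Sb R yf : ℝ)
    (X Y D dlt : RC)
    (hY : Y.i = (1 + s) * rsg eps z.be)
    (hDr : D.r = 1 + 2 * (R * g) * X.r + ((R * R) - Sb) * (g * g) * Y.r + dlt.r)
    (hDi : D.i = 2 * (R * g) * X.i + ((R * R) - Sb) * (g * g) * Y.i + (rsg eps b0 + dlt.i))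
    (n Nr Ni : ℝ) (hn : n = D.r * D.r + s * (D.i * D.i))
    (hNr : Nr = R + ((R * R) - Sb) * g * X.r - 2 * (Sb * R * (g * g)) * Y.r)
    (hNi : Ni = R * rsg eps b0 + ((R * R) - Sb) * g * X.i - 2 * (Sb * R * (g * g)) * Y.i)
    (v x1 x2 y1 y2 : ℝ) (hv : v = 1 - 2 * (Sb * (g * g)) * (1 + s) * z.yr)
    (hx1 : x1 = eqX1 s eps z) (hx2 : x2 = eqX2 z)
    (hy1 : y1 = eqY1 s z.yr (eqyd s z b0 (Sb * (g * g)) z.yr v)) (hy2 : y2 = eqY2 s eps z)
    (res : RRes)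
    (hres : res = r_po1 s (1 + s) eps z b0 (Sb * (g * g)) z.yr X Y D dlt R (2 * (R * g))
      ((R * R - Sb) * (g * g)) ((R * R + Sb) * g) (g * ((R * R + Sb) * g)) (R * g) yf (rsg eps b0)
      (g * (R * R - Sb)) (2 * ((Sb * (g * g)) * R)))
    (hck : res.ck) :
    0 < D.r ∧ 0 < n ∧ 0 < v ∧
    res.st.a = (Nr * D.r + s * (Ni * D.i)) / n ∧
    res.st.b = rsg eps ((Ni * D.r - Nr * D.i) / n) ∧
    res.st.be = rsg eps (-(yf * D.i / n)) ∧
    res.st.yr = yf * D.r / n ∧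
    res.st.ad = (((((R * R) - Sb) * g * x1 - 2 * (Sb * R * (g * g)) * y1) * D.r
        + Nr * (2 * (R * g) * x1 + ((R * R) - Sb) * (g * g) * y1)
        + s * ((((R * R) - Sb) * g * x2 - 2 * (Sb * R * (g * g)) * y2) * D.i
          + Ni * (2 * (R * g) * x2 + ((R * R) - Sb) * (g * g) * y2)) + (1 + s) * (Ni * D.i))
      - (Nr * D.r + s * (Ni * D.i)) / n *
        (2 * (D.r * (2 * (R * g) * x1 + ((R * R) - Sb) * (g * g) * y1)
          + s * (D.i * (2 * (R * g) * x2 + ((R * R) - Sb) * (g * g) * y2)))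
        + (1 + s) * (D.i * D.i))) / n ∧
    res.st.bd = rsg eps ((((((R * R) - Sb) * g * x2 - 2 * (Sb * R * (g * g)) * y2) * D.r
        + Ni * (2 * (R * g) * x1 + ((R * R) - Sb) * (g * g) * y1)
        - (((R * R) - Sb) * g * x1 - 2 * (Sb * R * (g * g)) * y1) * D.i
        - Nr * (2 * (R * g) * x2 + ((R * R) - Sb) * (g * g) * y2))
      - (Ni * D.r - Nr * D.i) / n *
        (2 * (D.r * (2 * (R * g) * x1 + ((R * R) - Sb) * (g * g) * y1)
          + s * (D.i * (2 * (R * g) * x2 + ((R * R) - Sb) * (g * g) * y2)))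
        + (1 + s) * (D.i * D.i))) / n) ∧
    res.st.bed = rsg eps (-(yf * ((2 * (R * g) * x2 + ((R * R) - Sb) * (g * g) * y2)
      - D.i * (2 * (D.r * (2 * (R * g) * x1 + ((R * R) - Sb) * (g * g) * y1)
          + s * (D.i * (2 * (R * g) * x2 + ((R * R) - Sb) * (g * g) * y2)))
        + (1 + s) * (D.i * D.i)) / n)) / n) ∧
    res.L = (2 * (D.r * (2 * (R * g) * x1 + ((R * R) - Sb) * (g * g) * y1)
          + s * (D.i * (2 * (R * g) * x2 + ((R * R) - Sb) * (g * g) * y2)))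
        + (1 + s) * (D.i * D.i)) / n - 1 := by
  subst hres
  have hck2 : 0 < D.r ∧ 0 < 1 - (2 * (((1 + s) * (Sb * (g * g))) * z.yr)) ∧ True := hck
  obtain ⟨hD0, hv0, -⟩ := hck2
  have hn0 : 0 < n := by
    rw [hn]
    have h2 : 0 ≤ s * (D.i * D.i) := mul_nonneg hs (mul_self_nonneg _)
    have h3 : 0 < D.r * D.r := mul_pos hD0 hD0
    linarith
  have hve : 1 - (2 * (((1 + s) * (Sb * (g * g))) * z.yr)) = v := by
    rw [hv]; ring
  have hQ : RC.inv s D = ⟨D.r / n, -(D.i / n)⟩ := by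
    rw [hn]; exact eqo_inv s hs D hD0
  -- the auxiliary elements
  obtain ⟨W, hW⟩ : ∃ W : RC, W = RC.mk ((((R * R + Sb) * g) * (X.r + (R * g) * Y.r)) + (R * dlt.r))
    ((((R * R + Sb) * g) * (X.i + (R * g) * Y.i)) + (R * dlt.i)) := ⟨_, rfl⟩
  have hW2 : W = ⟨R * D.r - Nr, R * D.i - Ni⟩ := by
    rw [hW, hDr, hDi, hNr, hNi]
    congr 1 <;> ring
  obtain ⟨U, hU⟩ : ∃ U : RC, U = RC.mk (((g * (R * R - Sb)) * dlt.r) - (((R * R + Sb) * g) *
    (1 - ((g * ((R * R + Sb) * g)) * Y.r)))) (((g * (R * R - Sb)) * dlt.i) -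
    (((R * R + Sb) * g) * (rsg eps b0 - ((g * ((R * R + Sb) * g)) * Y.i)))) := ⟨_, rfl⟩
  have hU2 : U = ⟨(((R * R) - Sb) * g) * D.r - (2 * (R * g)) * Nr,
      (((R * R) - Sb) * g) * D.i - (2 * (R * g)) * Ni⟩ := by
    rw [hU, hDr, hDi, hNr, hNi]
    congr 1 <;> ring
  obtain ⟨V, hV⟩ : ∃ V : RC, V = RC.mk (-(((2 * ((Sb * (g * g)) * R)) * dlt.r) +
    ((g * ((R * R + Sb) * g)) * (R + (((R * R + Sb) * g) * X.r)))))
    (-(((2 * ((Sb * (g * g)) * R)) * dlt.i) + ((g * ((R * R + Sb) * g)) *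
    ((R * rsg eps b0) + (((R * R + Sb) * g) * X.i))))) := ⟨_, rfl⟩
  have hV2 : V = ⟨-((2 * (Sb * R * (g * g))) * D.r) - (((R * R) - Sb) * (g * g)) * Nr,
      -((2 * (Sb * R * (g * g))) * D.i) - (((R * R) - Sb) * (g * g)) * Ni⟩ := by
    rw [hV, hDr, hDi, hNr, hNi]
    congr 1 <;> ring
  obtain ⟨Q, hQd⟩ : ∃ Q : RC, Q = RC.inv s D := ⟨_, rfl⟩
  rw [← hQd] at hQ
  obtain ⟨w, hw⟩ : ∃ w : RC, w = RC.mk (R - ((W.r * Q.r) - (s * (W.i * Q.i))))
    (-((W.r * Q.i) + (W.i * Q.r))) := ⟨_, rfl⟩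
  have hw2 : w = ⟨(Nr * D.r + s * (Ni * D.i)) / n, (Ni * D.r - Nr * D.i) / n⟩ := by
    rw [hw, hW2, hQ]
    have hnn : n ≠ 0 := hn0.ne'
    congr 1
    · show R - ((R * D.r - Nr) * (D.r / n) - s * ((R * D.i - Ni) * (-(D.i / n)))) = _
      rw [eq_div_iff hnn]
      have e1 : (R - ((R * D.r - Nr) * (D.r / n) - s * ((R * D.i - Ni) * (-(D.i / n))))) * n =
          R * n - (R * D.r - Nr) * D.r * (n / n) - s * ((R * D.i - Ni) * D.i) * (n / n) := by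
        ring
      rw [e1, div_self hnn, hn]
      ring
    · show -((R * D.r - Nr) * (-(D.i / n)) + (R * D.i - Ni) * (D.r / n)) = _
      rw [eq_div_iff hnn]
      have e1 : (-((R * D.r - Nr) * (-(D.i / n)) + (R * D.i - Ni) * (D.r / n))) * n =
          ((R * D.r - Nr) * D.i - (R * D.i - Ni) * D.r) * (n / n) := by
        ring
      rw [e1, div_self hnn]
      ring
  have hwr : w.r = (Nr * D.r + s * (Ni * D.i)) / n := by rw [hw2]
  have hwi : w.i = (Ni * D.r - Nr * D.i) / n := by rw [hw2]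
  have hQr : Q.r = D.r / n := by rw [hQ]
  have hQi : Q.i = -(D.i / n) := by rw [hQ]
  -- the phase function
  have hst : (r_po1 s (1 + s) eps z b0 (Sb * (g * g)) z.yr X Y D dlt R (2 * (R * g))
      ((R * R - Sb) * (g * g)) ((R * R + Sb) * g) (g * ((R * R + Sb) * g)) (R * g) yf (rsg eps b0)
      (g * (R * R - Sb)) (2 * ((Sb * (g * g)) * R))).st =
      (r_ph3 s (1 + s) eps eps z b0 (Sb * (g * g)) z.yr Y.i w (RC.sc yf Q) D Q
        (RC.mul s U (RC.mul s Q Q)) (RC.mul s V (RC.mul s Q Q)) (2 * (R * g))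
        ((R * R - Sb) * (g * g)) (z.b * z.b) (z.be * z.be)
        (1 / (1 - (2 * (((1 + s) * (Sb * (g * g))) * z.yr))))).st := by
    rw [hw, hW, hU, hV, hQd]
    rfl
  have hLL : (r_po1 s (1 + s) eps z b0 (Sb * (g * g)) z.yr X Y D dlt R (2 * (R * g))
      ((R * R - Sb) * (g * g)) ((R * R + Sb) * g) (g * ((R * R + Sb) * g)) (R * g) yf (rsg eps b0)
      (g * (R * R - Sb)) (2 * ((Sb * (g * g)) * R))).L =
      (r_ph3 s (1 + s) eps eps z b0 (Sb * (g * g)) z.yr Y.i w (RC.sc yf Q) D Q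
        (RC.mul s U (RC.mul s Q Q)) (RC.mul s V (RC.mul s Q Q)) (2 * (R * g))
        ((R * R - Sb) * (g * g)) (z.b * z.b) (z.be * z.be)
        (1 / (1 - (2 * (((1 + s) * (Sb * (g * g))) * z.yr))))).L := by
    rw [hw, hW, hU, hV, hQd]
    rfl
  rw [hst, hLL, hve]
  refine ⟨hD0, hn0, hve ▸ hv0, ?_, ?_, ?_, ?_, ?_, ?_, ?_, ?_⟩
  · exact hwr
  · show rsg eps w.i = _
    rw [hwi]
  · show rsg eps (yf * Q.i) = _
    rw [hQi]
    congr 1
    ring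
  · show yf * Q.r = _
    rw [hQr]
    ring
  · rw [eqo_ad s eps eps z b0 (Sb * (g * g)) z.yr Y.i w (RC.sc yf Q) D Q _ _ _ _ v hY, ← hx1,
      ← hx2, ← hy1, ← hy2, hwi]
    exact eqo_wr s n D.r D.i Nr Ni (((R * R) - Sb) * g) (2 * (R * g)) (2 * (Sb * R * (g * g)))
      (((R * R) - Sb) * (g * g)) x1 x2 y1 y2 hn hn0.ne' Q _ _ _ _ hQ (by rw [hU2]) (by rw [hV2])
      rfl rfl
  · rw [eqo_bd s eps eps z b0 (Sb * (g * g)) z.yr Y.i w (RC.sc yf Q) D Q _ _ _ _ v hY, ← hx1,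
      ← hx2, ← hy1, ← hy2, hwi]
    congr 1
    exact eqo_wi s n D.r D.i Nr Ni (((R * R) - Sb) * g) (2 * (R * g)) (2 * (Sb * R * (g * g)))
      (((R * R) - Sb) * (g * g)) x1 x2 y1 y2 hn hn0.ne' Q _ _ _ hQ (by rw [hU2]) (by rw [hV2]) rfl
  · rw [eqo_bed s eps eps z b0 (Sb * (g * g)) z.yr Y.i w (RC.sc yf Q) D Q _ _ _ _ v hY, ← hx1,
      ← hx2, ← hy1, ← hy2]
    congr 1
    exact eqo_be s n D.r D.i (2 * (R * g)) (((R * R) - Sb) * (g * g)) x1 x2 y1 y2 yf hn hn0.ne'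
      Q _ D hQ rfl rfl
  · rw [eqo_L s eps eps z b0 (Sb * (g * g)) z.yr Y.i w (RC.sc yf Q) D Q _ _ _ _ v hY, ← hx1,
      ← hx2, ← hy1, ← hy2]
    exact eqo_Ld s n D.r D.i (2 * (R * g)) (((R * R) - Sb) * (g * g)) x1 x2 y1 y2 hn0.ne' Q D hQ
      rfl

/-- the odd program after the parameters -/
def eqoF (s : ℝ) (ε : Bool) (z : RSt) (k g b0 Sb R eta zet nu yr : ℝ) : RRes :=
  r_qo2 s (1 + s) ε z g b0 Sb (Sb * (g * g)) yr R (R * R) (R * R + Sb)
    (1 + (1 / 2) * (2 - k) * eta) eta zet nu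

theorem eqo_nu (k R : ℝ) (hk : 0 < k) :
    (k * k) * (1 / (2 * (2 * (2 + k)))) * (R * R + SbP k) = (1 / 4) * (2 - k) + qP k R := by
  unfold SbP qP
  have h2 : 2 + k ≠ 0 := by positivity
  have h3 : k ≠ 0 := hk.ne'
  field_simp
  ring

theorem eqo_ci (k hd he R nu : ℝ) (hk : 0 < k) (hnu : nu = (1 / 4) * (2 - k) + qP k R) :
    b0P k hd he + nu * zetP k hd he = CiP false k hd he R := by
  have h : CiP false k hd he R = (1 / 4) * (2 + k) * etaP k hd he + qP k R * zetP k hd he := rfl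
  rw [h, hnu]
  unfold b0P zetP etaP
  have h3 : k ≠ 0 := hk.ne'
  field_simp
  ring

theorem eqo_sgadd (e : Bool) (x y : ℝ) : rsg e x + rsg e y = rsg e (x + y) := by
  cases e <;> simp only [rsg_true, rsg_false]
  ring

theorem st_EQO : ST_EQ false := by
  intro s k hd he R ε z hs hk hhd hhe hN hck
  have hb : 2 * (2 * gP k hd he) - 1 = b0P k hd he := by unfold b0P; ring
  have heta : (2 * (2 * gP k hd he)) * (1 / k) + 2 * gP k hd he - 1 = etaP k hd he := by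
    unfold etaP; ring
  have hzet : (2 * (2 * gP k hd he)) * (1 / k) - 2 * gP k hd he + 1 = zetP k hd he := by
    unfold zetP; ring
  have hnu := eqo_nu k R hk
  have hy := eqo_itY s k hd he z hN (SbP hd) (2 * (2 * gP k hd he) - 1)
    ((1 + s) * (SbP k * (gP k hd he * gP k hd he))) rfl hb rfl
  have est : (r_stp s ε false z k hd he R).st = (eqoF s ε z k (gP k hd he)
      (2 * (2 * gP k hd he) - 1) (SbP k) R ((2 * (2 * gP k hd he)) * (1 / k) + 2 * gP k hd he - 1)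
      ((2 * (2 * gP k hd he)) * (1 / k) - 2 * gP k hd he + 1)
      ((k * k) * (1 / (2 * (2 * (2 + k)))) * (R * R + SbP k))
      (r_itY (r_cA s (SbP hd) (2 * (2 * gP k hd he) - 1) z)
        ((1 + s) * (SbP k * (gP k hd he * gP k hd he))) (s * (z.be * z.be))
        (r_itY (r_cA s (SbP hd) (2 * (2 * gP k hd he) - 1) z)
          ((1 + s) * (SbP k * (gP k hd he * gP k hd he))) (s * (z.be * z.be)) z.yr))).st := rfl
  have eL : (r_stp s ε false z k hd he R).L = (eqoF s ε z k (gP k hd he)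
      (2 * (2 * gP k hd he) - 1) (SbP k) R ((2 * (2 * gP k hd he)) * (1 / k) + 2 * gP k hd he - 1)
      ((2 * (2 * gP k hd he)) * (1 / k) - 2 * gP k hd he + 1)
      ((k * k) * (1 / (2 * (2 * (2 + k)))) * (R * R + SbP k))
      (r_itY (r_cA s (SbP hd) (2 * (2 * gP k hd he) - 1) z)
        ((1 + s) * (SbP k * (gP k hd he * gP k hd he))) (s * (z.be * z.be))
        (r_itY (r_cA s (SbP hd) (2 * (2 * gP k hd he) - 1) z)
          ((1 + s) * (SbP k * (gP k hd he * gP k hd he))) (s * (z.be * z.be)) z.yr))).L := rfl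
  have eck : 0 < k * hd ∧ 0 < 2 * (1 + ((2 * he) * (1 / (k * hd)))) ∧ 0 < k * k ∧ 0 < hd * hd ∧
      0 < k ∧ 0 < 2 * (2 * (2 + k)) ∧ (eqoF s ε z k (gP k hd he)
      (2 * (2 * gP k hd he) - 1) (SbP k) R ((2 * (2 * gP k hd he)) * (1 / k) + 2 * gP k hd he - 1)
      ((2 * (2 * gP k hd he)) * (1 / k) - 2 * gP k hd he + 1)
      ((k * k) * (1 / (2 * (2 * (2 + k)))) * (R * R + SbP k))
      (r_itY (r_cA s (SbP hd) (2 * (2 * gP k hd he) - 1) z)
        ((1 + s) * (SbP k * (gP k hd he * gP k hd he))) (s * (z.be * z.be))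
        (r_itY (r_cA s (SbP hd) (2 * (2 * gP k hd he) - 1) z)
          ((1 + s) * (SbP k * (gP k hd he * gP k hd he))) (s * (z.be * z.be)) z.yr))).ck := hck
  obtain ⟨-, -, -, -, -, -, eck⟩ := eck
  rw [hy, hb, heta, hzet, hnu] at est eL eck
  obtain ⟨res, hres⟩ : ∃ res, res = eqoF s ε z k (gP k hd he) (b0P k hd he) (SbP k) R
    (etaP k hd he) (zetP k hd he) (1 / 4 * (2 - k) + qP k R) z.yr := ⟨_, rfl⟩
  rw [← hres] at est eL eck
  obtain ⟨D, hD⟩ : ∃ D : RC, D = RC.mk ((1 + (1 / 4 * (2 - k) + qP k R) * etaP k hd he)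
    + ((2 * (R * gP k hd he)) * (r_cX s ε z.a z.b).r
      + ((R * R - SbP k) * (gP k hd he * gP k hd he)) * (r_cY (1 + s) ε z.yr z.be).r))
    ((rsg ε (b0P k hd he) + rsg ε ((1 / 4 * (2 - k) + qP k R) * zetP k hd he))
    + ((2 * (R * gP k hd he)) * (r_cX s ε z.a z.b).i
      + ((R * R - SbP k) * (gP k hd he * gP k hd he)) * (r_cY (1 + s) ε z.yr z.be).i)) := ⟨_, rfl⟩
  have hDr : D.r = vDr s ε false z.val k hd he R := by
    rw [hD]
    show (1 + (1 / 4 * (2 - k) + qP k R) * etaP k hd he)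
      + ((2 * (R * gP k hd he)) * (rsg ε (z.a - s * z.b))
      + ((R * R - SbP k) * (gP k hd he * gP k hd he)) * ((1 + s) * z.yr)) =
      1 + 2 * (R * gP k hd he) * (rsg ε (z.a - s * z.b))
      + ((R * R) - SbP k) * (gP k hd he * gP k hd he) * ((1 + s) * z.yr)
      + etaP k hd he * ((1 / 4) * (2 - k) + qP k R)
    ring
  have hDi : D.i = vDi s ε false z.val k hd he R := by
    rw [hD]
    show (rsg ε (b0P k hd he) + rsg ε ((1 / 4 * (2 - k) + qP k R) * zetP k hd he))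
      + ((2 * (R * gP k hd he)) * (z.a + z.b)
      + ((R * R - SbP k) * (gP k hd he * gP k hd he)) * ((1 + s) * rsg ε z.be)) =
      2 * (R * gP k hd he) * (z.a + z.b)
      + ((R * R) - SbP k) * (gP k hd he * gP k hd he) * ((1 + s) * rsg ε z.be)
      + rsg ε (CiP false k hd he R)
    rw [eqo_sgadd, eqo_ci k hd he R _ hk rfl]
    ring
  have hc := eqo_core s hs ε z (gP k hd he) (b0P k hd he) (SbP k) R (yfP false k hd he R)
    (r_cX s ε z.a z.b) (r_cY (1 + s) ε z.yr z.be) D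
    (RC.mk ((1 / 4 * (2 - k) + qP k R) * etaP k hd he)
      (rsg ε ((1 / 4 * (2 - k) + qP k R) * zetP k hd he))) rfl
    (by rw [hD]; simp only []; ring) (by rw [hD]; simp only []; ring)
    (vn s ε false z.val k hd he R) (vNr s ε z.val k hd he R) (vNi s ε z.val k hd he R)
    (by rw [hDr, hDi]; rfl) rfl rfl
    (1 - 2 * (SbP k * (gP k hd he * gP k hd he)) * (1 + s) * z.yr) (dXr s ε z) (dXi z)
    (dYr s z (ydP s k hd he z)) (dYi s ε z) rfl rfl rfl rfl rfl res (by rw [hres, hD]; rfl) eck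
  rw [hDr, hDi] at hc
  obtain ⟨c1, c2, c3, c4, c5, c6, c7, c8, c9, c10, c11⟩ := hc
  refine ⟨c1, c2, c3, ?_, ?_, ?_, ?_, ?_⟩
  · rw [est]
    show RV.mk res.st.a res.st.b res.st.be res.st.yr = _
    rw [c4, c5, c6, c7]
    cases ε <;> rfl
  · rw [est, c8]
    rfl
  · rw [est, c9]
    cases ε <;> rfl
  · rw [est, c10]
    cases ε <;> rfl
  · rw [eL, c11]
    rfl

end Pool.Agent.Helper6.MONO
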