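import Pool.Agent.Helper6.MONO.Stmts

/-!
A valid group of stars gives a region.
-/

set_option autoImplicit false
noncomputable section
namespace Pool.Agent.Helper6.MONO

/-- bound for an interval -/
def regI : I → ℝ
  | I.pos l h => (l : ℝ) + h
  | I.neg l h => (l : ℝ) + h
  | I.mix l h => (l : ℝ) + h

theorem regI_nonneg (X : I) : 0 ≤ regI X := by
  cases X <;> simp only [regI] <;> positivity

theorem regI_mem (x : ℝ) (X : I) (h : mem x X) : |x| ≤ regI X := by
  cases X with
  | pos l h' =>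
    rw [mem_pos_iff] at h
    obtain ⟨h1, h2⟩ := h
    simp only [regI]
    have hl : (0 : ℝ) ≤ l := Nat.cast_nonneg _
    have hh : (0 : ℝ) ≤ h' := Nat.cast_nonneg _
    rw [abs_le]
    constructor <;> linarith
  | neg l h' =>
    rw [mem_neg_iff] at h
    obtain ⟨h1, h2⟩ := h
    simp only [regI]
    have hl : (0 : ℝ) ≤ l := Nat.cast_nonneg _
    have hh : (0 : ℝ) ≤ h' := Nat.cast_nonneg _
    rw [abs_le]
    constructor <;> linarith
  | mix l h' =>
    rw [mem_mix_iff] at h
    obtain ⟨h1, h2⟩ := h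
    simp only [regI]
    have hl : (0 : ℝ) ≤ l := Nat.cast_nonneg _
    have hh : (0 : ℝ) ≤ h' := Nat.cast_nonneg _
    rw [abs_le]
    constructor <;> linarith

/-- bound for a box -/
def regB (x : Bx) : ℝ := (x.pot : ℝ) + regI x.z.a + regI x.z.b + regI x.z.be + regI x.z.yr

theorem regB_nonneg (x : Bx) : 0 ≤ regB x := by
  have h1 := regI_nonneg x.z.a
  have h2 := regI_nonneg x.z.b
  have h3 := regI_nonneg x.z.be
  have h4 := regI_nonneg x.z.yr
  have h5 : (0 : ℝ) ≤ x.pot := Nat.cast_nonneg _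
  unfold regB
  linarith

/-- the boxes of a tree -/
def regT : BTr → List Bx
  | BTr.e => []
  | BTr.b x => [x]
  | BTr.n l r => regT l ++ regT r

theorem regT_at (p : Pth) : ∀ (t : BTr) (x : Bx), BTr.at p t = some x → x ∈ regT t := by
  induction p with
  | z =>
    intro t x h
    cases t with
    | e => simp [BTr.at] at h
    | b y =>
      simp only [BTr.at, Option.some.injEq] at h
      simp [regT, h]
    | n l r => simp [BTr.at] at h
  | l p ih =>
    intro t x h
    cases t with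
    | e => simp [BTr.at] at h
    | b y => simp [BTr.at] at h
    | n l r =>
      simp only [BTr.at] at h
      simp only [regT, List.mem_append]
      exact Or.inl (ih l x h)
  | r p ih =>
    intro t x h
    cases t with
    | e => simp [BTr.at] at h
    | b y => simp [BTr.at] at h
    | n l r =>
      simp only [BTr.at] at h
      simp only [regT, List.mem_append]
      exact Or.inr (ih r x h)

theorem reg_lk (p : Pth) : ∀ (t : BTr) (f : Bx → Bool), lk p t f = true →
    ∃ x, BTr.at p t = some x ∧ f x = true := by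
  induction p with
  | z =>
    intro t f h
    cases t with
    | e => exact absurd h (by simp [lk, lkz])
    | b y => exact ⟨y, rfl, h⟩
    | n l r => exact absurd h (by simp [lk, lkz])
  | l p ih =>
    intro t f h
    cases t with
    | e => exact absurd h (by simp [lk, lkl])
    | b y => exact absurd h (by simp [lk, lkl])
    | n l r => exact ih l f h
  | r p ih =>
    intro t f h
    cases t with
    | e => exact absurd h (by simp [lk, lkr])
    | b y => exact absurd h (by simp [lk, lkr])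
    | n l r => exact ih r f h

theorem reg_all (P : Bx → Prop) (p : Pth) : ∀ (t : BTr) (x : Bx), BTr.All P t →
    BTr.at p t = some x → P x := by
  induction p with
  | z =>
    intro t x hA h
    cases t with
    | e => simp [BTr.at] at h
    | b y =>
      simp only [BTr.at, Option.some.injEq] at h
      rw [← h]
      exact hA
    | n l r => simp [BTr.at] at h
  | l p ih =>
    intro t x hA h
    cases t with
    | e => simp [BTr.at] at h
    | b y => simp [BTr.at] at h
    | n l r => exact ih l x hA.1 h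
  | r p ih =>
    intro t x hA h
    cases t with
    | e => simp [BTr.at] at h
    | b y => simp [BTr.at] at h
    | n l r => exact ih r x hA.2 h

theorem reg_allL (P : Tag → Prop) : ∀ (l : List Tag) (t : Tag), AllL P l → t ∈ l → P t := by
  intro l
  induction l with
  | nil => intro t _ h; simp at h
  | cons a l ih =>
    intro t hA h
    rcases List.mem_cons.mp h with h | h
    · rw [h]; exact hA.1
    · exact ih t hA.2 h

theorem reg_mm (p q r : ℕ) (i j : Fin 3) : mm p q r i j = mm p q r j i := by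
  fin_cases i <;> fin_cases j <;> rfl

theorem reg_mm3 (p q r : ℕ) (hp : 3 ≤ p) (hq : 3 ≤ q) (hr : 3 ≤ r) (i j : Fin 3) (h : i ≠ j) :
    3 ≤ mm p q r i j := by
  fin_cases i <;> fin_cases j <;> first | exact absurd rfl h | exact hp | exact hq | exact hr

theorem reg_Kp (M : ℕ) (hM : 3 ≤ M) : 0 < Kp M ∧ Kp M ≤ 2 := by
  unfold Kp
  constructor
  · have h1 : (0 : ℝ) < M := by positivity
    have h2 : Real.pi / M < Real.pi / 2 := by
      apply div_lt_div_of_pos_left Real.pi_pos (by norm_num)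
      have : (3 : ℝ) ≤ M := by exact_mod_cast hM
      linarith
    have h3 : 0 ≤ Real.pi / M := by positivity
    have h4 := Real.cos_pos_of_mem_Ioo ⟨by linarith [Real.pi_pos], h2⟩
    linarith
  · have := Real.cos_le_one (Real.pi / M)
    linarith

/-- the classes of the three pairs of a star -/
theorem reg_cls (A B C : ClassD) (p q r : ℕ) (c d e : Fin 3) (h : Dist c d e) :
    ∃ X Y Z : ClassD, [X, Y, Z].Perm [A, B, C] ∧ ∀ F : ClassD → ℕ → Prop, F A p → F B q → F C r →
      F X (mm p q r d e) ∧ F Y (mm p q r c d) ∧ F Z (mm p q r c e) := by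
  have p1 : [A, B, C].Perm [A, B, C] := List.Perm.refl _
  have p2 : [B, A, C].Perm [A, B, C] := List.Perm.swap A B [C]
  have p3 : [A, C, B].Perm [A, B, C] := List.Perm.cons A (List.Perm.swap B C [])
  have p4 : [B, C, A].Perm [A, B, C] := (List.Perm.cons B (List.Perm.swap A C [])).trans p2
  have p5 : [C, A, B].Perm [A, B, C] := (List.Perm.swap A C [B]).trans p3
  have p6 : [C, B, A].Perm [A, B, C] := (List.Perm.cons C (List.Perm.swap A B [])).trans p5
  obtain ⟨h1, h2, h3⟩ := h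
  fin_cases c <;> fin_cases d <;> fin_cases e <;>
    first
    | exact absurd rfl h1
    | exact absurd rfl h2
    | exact absurd rfl h3
    | exact ⟨A, B, C, p1, fun F hA hB hC => ⟨hA, hB, hC⟩⟩
    | exact ⟨B, A, C, p2, fun F hA hB hC => ⟨hB, hA, hC⟩⟩
    | exact ⟨A, C, B, p3, fun F hA hB hC => ⟨hA, hC, hB⟩⟩
    | exact ⟨B, C, A, p4, fun F hA hB hC => ⟨hB, hC, hA⟩⟩
    | exact ⟨C, A, B, p5, fun F hA hB hC => ⟨hC, hA, hB⟩⟩
    | exact ⟨C, B, A, p6, fun F hA hB hC => ⟨hC, hB, hA⟩⟩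

theorem reg_a0 (a0 : ℝ) (h : isA0 a0) (s : I) (G : List StarD) (S : StarD) (hS : StarOK s G S) :
    ∃ (a0I : I) (p : Pth) (yl yh : ℕ), mem a0 a0I ∧ chkSt s a0I S p yl yh = true := by
  rcases h with rfl | rfl | rfl
  · obtain ⟨p, yl, yh, h⟩ := hS.st6
    refine ⟨a06, p, yl, yh, ?_, h⟩
    refine (mem_pos_iff _ _ _).2 ⟨?_, ?_⟩ <;> norm_num
  · obtain ⟨p, yl, yh, h⟩ := hS.st7
    refine ⟨a07, p, yl, yh, ?_, h⟩
    refine (mem_pos_iff _ _ _).2 ⟨?_, ?_⟩ <;> norm_num
  · obtain ⟨p, yl, yh, h⟩ := hS.st8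
    refine ⟨a08, p, yl, yh, ?_, h⟩
    refine (mem_pos_iff _ _ _).2 ⟨?_, ?_⟩ <;> norm_num

/-- where the boxes live -/
def regAt (p q r : ℕ) (G : List StarD) (x : Bx) (t : Fin 3 × Fin 3 × Fin 3) : Prop :=
  ∃ i, i < G.length ∧ (∃ w, BTr.at w (getS G i).bt = some x) ∧
    (InC (getS G i).ck (mm p q r t.2.1 t.2.2) ∧ ClsOK (getS G i).ck) ∧
    (InC (getS G i).cd (mm p q r t.1 t.2.1) ∧ ClsOK (getS G i).cd) ∧
    (InC (getS G i).ce (mm p q r t.1 t.2.2) ∧ ClsOK (getS G i).ce)

/-- all boxes -/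
def regG (G : List StarD) : List Bx := G.flatMap fun S => regT S.bt

theorem reg_memG (G : List StarD) (i : ℕ) (hi : i < G.length) (x : Bx) (w : Pth)
    (h : BTr.at w (getS G i).bt = some x) : x ∈ regG G := by
  unfold regG
  rw [List.mem_flatMap]
  refine ⟨getS G i, ?_, regT_at w _ x h⟩
  unfold getS
  rw [List.getD_eq_getElem _ _ hi]
  exact List.getElem_mem hi

/-- the bound -/
def regBd (G : List StarD) : ℝ := ((regG G).map regB).sum

theorem reg_le (G : List StarD) (x : Bx) (hx : x ∈ regG G) : regB x ≤ regBd G := by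
  unfold regBd
  apply List.single_le_sum
  · intro y hy
    rw [List.mem_map] at hy
    obtain ⟨z, _, rfl⟩ := hy
    exact regB_nonneg z
  · exact List.mem_map_of_mem hx

theorem st_REG : ST_REG := by
  intro hTRS hTGS hTGC hSTS hRBF hRBT sa sb G A B C hG hcov hA hB hC p q r hp hq hr hAp hBq hCr
  have hTGS' := hTGS hTRS
  have hTGC' := hTGC hRBF hRBT
  have hms : ∀ s : ℝ, (sa : ℝ) / 268435456 ≤ s → s ≤ (sb : ℝ) / 268435456 →
      mem s (I.pos sa sb) := by
    intro s h1 h2
    refine (mem_pos_iff _ _ _).2 ⟨?_, ?_⟩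
    · rw [div_le_iff₀ (by norm_num)] at h1
      exact h1
    · rw [le_div_iff₀ (by norm_num)] at h2
      exact h2
  refine ⟨{x : Bx // x ∈ regG G}, fun j t => regAt p q r G j.1 t, fun j => j.1.v,
    fun j => (j.1.pot : ℝ) / 268435456, fun j z => memSt z j.1.z, regBd G, ?_, ?_, ?_, ?_⟩
  · rintro ⟨x, hx⟩
    have h1 := reg_le G x hx
    have h2 := regI_nonneg x.z.a
    have h3 := regI_nonneg x.z.b
    have h4 := regI_nonneg x.z.be
    have h5 := regI_nonneg x.z.yr
    unfold regB at h1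
    show |(x.pot : ℝ) / 268435456| ≤ regBd G
    have h0 : (0 : ℝ) ≤ x.pot := Nat.cast_nonneg _
    rw [abs_of_nonneg (by positivity)]
    have h6 : (x.pot : ℝ) / 268435456 ≤ x.pot := div_le_self h0 (by norm_num)
    linarith
  · rintro ⟨x, hx⟩ z hz
    have hz' : memSt z x.z := hz
    have h1 := reg_le G x hx
    have h2 := regI_nonneg x.z.a
    have h3 := regI_nonneg x.z.b
    have h4 := regI_nonneg x.z.be
    have h5 := regI_nonneg x.z.yr
    have h0 : (0 : ℝ) ≤ x.pot := Nat.cast_nonneg _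
    have k1 := regI_mem _ _ hz'.a
    have k2 := regI_mem _ _ hz'.b
    have k3 := regI_mem _ _ hz'.be
    have k4 := regI_mem _ _ hz'.yr
    unfold regB at h1
    refine ⟨?_, ?_, ?_, ?_⟩ <;> linarith
  · intro c d e hd a0 ha0
    obtain ⟨X, Y, Z, hperm, hF⟩ := reg_cls A B C p q r c d e hd
    obtain ⟨i, hi, hX, hY, hZ⟩ := hcov X Y Z hperm
    obtain ⟨⟨f1, g1⟩, ⟨f2, g2⟩, ⟨f3, g3⟩⟩ := hF (fun D M => InC D M ∧ ClsOK D) ⟨hAp, hA⟩ ⟨hBq, hB⟩
      ⟨hCr, hC⟩
    have hS := hG i hi
    obtain ⟨a0I, w, yl, yh, hm, hck⟩ := reg_a0 a0 ha0 _ _ _ hS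
    obtain ⟨x, hx, hst⟩ := reg_lk w _ _ hck
    have hmem := reg_memG G i hi x w hx
    have e3 : 3 ≤ mm p q r d e := reg_mm3 p q r hp hq hr d e hd.2.1
    have e4 : 3 ≤ mm p q r c d := reg_mm3 p q r hp hq hr c d hd.1
    have e5 : 3 ≤ mm p q r c e := reg_mm3 p q r hp hq hr c e (Ne.symm hd.2.2)
    have hk := reg_Kp _ e3
    have hkd := reg_Kp _ e4
    have hke := reg_Kp _ e5
    have key : ∀ s : ℝ, (sa : ℝ) / 268435456 ≤ s → s ≤ (sb : ℝ) / 268435456 →
        4 * Kst s (kk p q r d e) (kk p q r c d) (kk p q r c e) * (a0 * a0 + SbP (kk p q r c d)) < 1 ∧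
        x.v = false ∧ memSt ⟨a0, 0, 0, y0 s (kk p q r d e) (kk p q r c d) (kk p q r c e) a0,
          0, 0, 0⟩ x.z := by
      intro s h1 h2
      have hs0 : 0 ≤ s := le_trans (by positivity) h1
      refine hSTS sa sb a0I (getS G i).ck.k (getS G i).cd.k (getS G i).ce.k yl yh x hst s a0
        (kk p q r d e) (kk p q r c d) (kk p q r c e) (hms s h1 h2) hm ?_ ?_ ?_ hs0 hk.1 hk.2
        hkd.1 hkd.2 hke.1
      · rw [hX]; exact g1.mem _ f1
      · rw [hY]; exact g2.mem _ f2
      · rw [hZ]; exact g3.mem _ f3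
    have hxv : x.v = false := by
      cases hv : x.v with
      | false => rfl
      | true =>
        exfalso
        unfold stB at hst
        rw [hv] at hst
        have hst2 : false = true := hst
        exact Bool.noConfusion hst2
    refine ⟨⟨x, hmem⟩, ⟨i, hi, ⟨w, hx⟩, ?_, ?_, ?_⟩, hxv, fun s h1 h2 =>
      ⟨(key s h1 h2).1, (key s h1 h2).2.2⟩⟩
    · rw [hX]; exact ⟨f1, g1⟩
    · rw [hY]; exact ⟨f2, g2⟩
    · rw [hZ]; exact ⟨f3, g3⟩
  · rintro ⟨x, hxG⟩ c d e hd ⟨i, hi, ⟨w, hx⟩, ⟨f1, g1⟩, ⟨f2, g2⟩, ⟨f3, g3⟩⟩ ε m hal s z hs1 hs2 hz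
    have hz' : memSt z x.z := hz
    have hal' : allowed (mm p q r d e) x.v ε m := hal
    have f1' : InC (getS G i).ck (mm p q r d e) := f1
    have f2' : InC (getS G i).cd (mm p q r c d) := f2
    have f3' : InC (getS G i).ce (mm p q r c e) := f3
    have hS := hG i hi
    obtain ⟨t, ht, ht1, ht2, ht3, ht4, ht5, ht6⟩ := hTGC' (getS G i).ck.ct x.v (mm p q r d e)
      (fun h => g1.c3 h _ f1') (fun h => g1.c4 h _ f1') (fun h => g1.c5 h _ f1')
      (fun h => g1.g h _ f1') ε m hal'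
    obtain ⟨RI, tr, hck⟩ := reg_allL _ _ t (reg_all _ w _ x hS.bx hx) ht
    obtain ⟨k1, w', x', hx', hv', hm', hL'⟩ := hTGS' sa sb (getS G i).ck (getS G i).cd
      (getS G i).ce (nxt G (getS G i) t.even).bt x t RI tr hck ht6 s (kk p q r d e) (kk p q r c d)
      (kk p q r c e) (Rb (mm p q r d e) m) z (hms s hs1 hs2) (g1.mem _ f1') (g2.mem _ f2')
      (g3.mem _ f3') hz' ht4 ht5
    rw [ht1, ht2] at k1 hm' hL'
    refine ⟨k1, ?_⟩
    cases hev : ev2 m with
    | true =>
      rw [hev] at ht2 hm' hL'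
      have hn : nxt G (getS G i) t.even = getS G (getS G i).nE := by
        unfold nxt
        rw [ht2]
        rfl
      rw [hn] at hx'
      refine ⟨⟨x', reg_memG G _ hS.lE x' w' hx'⟩, ⟨(getS G i).nE, hS.lE, ⟨w', hx'⟩, ?_, ?_, ?_⟩,
        fun h => ht3 (hv' h), hm', ?_⟩
      · show InC _ (mm p q r d c) ∧ ClsOK _
        rw [hS.e1, reg_mm]
        exact ⟨f2', g2⟩
      · show InC _ (mm p q r e d) ∧ ClsOK _
        rw [hS.e2, reg_mm]
        exact ⟨f1', g1⟩
      · show InC _ (mm p q r e c) ∧ ClsOK _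
        rw [hS.e3, reg_mm]
        exact ⟨f3', g3⟩
      · have e1 : ((x'.pot : ℝ) - x.pot) / 268435456 =
            (x'.pot : ℝ) / 268435456 - (x.pot : ℝ) / 268435456 := sub_div _ _ _
        rw [e1] at hL'
        exact hL'
    | false =>
      rw [hev] at ht2 hm' hL'
      have hn : nxt G (getS G i) t.even = getS G (getS G i).nO := by
        unfold nxt
        rw [ht2]
        rfl
      rw [hn] at hx'
      refine ⟨⟨x', reg_memG G _ hS.lO x' w' hx'⟩, ⟨(getS G i).nO, hS.lO, ⟨w', hx'⟩, ?_, ?_, ?_⟩,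
        fun h => ht3 (hv' h), hm', ?_⟩
      · show InC _ (mm p q r e c) ∧ ClsOK _
        rw [hS.o1, reg_mm]
        exact ⟨f3', g3⟩
      · show InC _ (mm p q r d e) ∧ ClsOK _
        rw [hS.o2]
        exact ⟨f1', g1⟩
      · show InC _ (mm p q r d c) ∧ ClsOK _
        rw [hS.o3, reg_mm]
        exact ⟨f2', g2⟩
      · have e1 : ((x'.pot : ℝ) - x.pot) / 268435456 =
            (x'.pot : ℝ) / 268435456 - (x.pot : ℝ) / 268435456 := sub_div _ _ _
        rw [e1] at hL'
        exact hL'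

end Pool.Agent.Helper6.MONO
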